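import Pool.Agent.V7H75.TE.Link
import Pool.Agent.V7H75.HF.Cons

set_option autoImplicit false

/-!
The markers and the cuts of a sequence are computable, uniformly in the sequence.
-/

namespace Pool.Agent.V7H75.TE

open Encodable Pool.Agent.Helper227
open Pool.Agent.V7H75.HF

theorem bd_prim : Primrec bd := by
  have h1 : Primrec fun m : ℕ => (max 1 m + 1) ^ 2 := by
    have h2 : Primrec fun m : ℕ => max 1 m + 1 :=
      Primrec.succ.comp (Primrec.nat_max.comp (Primrec.const 1) Primrec.id)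
    exact (Primrec.nat_mul.comp h2 h2).of_eq fun m => (sq _).symm
  have h2 : Primrec fun n : ℕ => (Nat.rec 0 (fun _ r => (max 1 r + 1) ^ 2) n : ℕ) :=
    Primrec.nat_rec' (f := fun n : ℕ => n) (g := fun _ : ℕ => 0)
      (h := fun (_ : ℕ) (y : ℕ × ℕ) => (max 1 y.2 + 1) ^ 2) Primrec.id (Primrec.const 0)
      (h1.comp (Primrec.snd.comp Primrec.snd))
  refine h2.of_eq fun n => ?_
  induction n with
  | zero => rfl
  | succ n ih => simp only [bd, ← ih]

theorem gM_prim : Primrec gM := by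
  have h1 : Primrec fun y : ℕ × ℕ => y.2 + 2 * bd (y.2 + y.1 + 2) * y.2 := by
    have h3 : Primrec fun y : ℕ × ℕ => y.2 + y.1 + 2 :=
      Primrec.nat_add.comp (Primrec.nat_add.comp Primrec.snd Primrec.fst) (Primrec.const 2)
    exact Primrec.nat_add.comp Primrec.snd (Primrec.nat_mul.comp
      (Primrec.nat_mul.comp (Primrec.const 2) (bd_prim.comp h3)) Primrec.snd)
  have h2 : Primrec fun n : ℕ => (Nat.rec 1 (fun n r => r + 2 * bd (r + n + 2) * r) n : ℕ) :=
    Primrec.nat_rec' (f := fun n : ℕ => n) (g := fun _ : ℕ => 1)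
      (h := fun (_ : ℕ) (y : ℕ × ℕ) => y.2 + 2 * bd (y.2 + y.1 + 2) * y.2) Primrec.id
      (Primrec.const 1) (h1.comp Primrec.snd)
  refine h2.of_eq fun n => ?_
  induction n with
  | zero => rfl
  | succ n ih => simp only [gM, ← ih]

theorem gK_prim : Primrec gK := by
  have h1 : Primrec fun y : ℕ × ℕ => 3 * gM y.1 + y.2 + gM (y.1 + 1) :=
    Primrec.nat_add.comp (Primrec.nat_add.comp (Primrec.nat_mul.comp (Primrec.const 3)
      (gM_prim.comp Primrec.fst)) Primrec.snd) (gM_prim.comp (Primrec.succ.comp Primrec.fst))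
  have h2 : Primrec fun n : ℕ => (Nat.rec 0 (fun n r => 3 * gM n + r + gM (n + 1)) n : ℕ) :=
    Primrec.nat_rec' (f := fun n : ℕ => n) (g := fun _ : ℕ => 0)
      (h := fun (_ : ℕ) (y : ℕ × ℕ) => 3 * gM y.1 + y.2 + gM (y.1 + 1)) Primrec.id
      (Primrec.const 0) (h1.comp Primrec.snd)
  refine h2.of_eq fun n => ?_
  induction n with
  | zero => rfl
  | succ n ih => simp only [gK, ← ih]

section general

variable {α : Type} [Primcodable α]

theorem comp_add {f g : α → ℕ} (hf : Computable f) (hg : Computable g) :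
    Computable fun a => f a + g a :=
  Computable₂.comp (f := fun a b : ℕ => a + b) Primrec.nat_add.to_comp hf hg

theorem comp_sub {f g : α → ℕ} (hf : Computable f) (hg : Computable g) :
    Computable fun a => f a - g a :=
  Computable₂.comp (f := fun a b : ℕ => a - b) Primrec.nat_sub.to_comp hf hg

theorem UD_lt {f g : α → ℕ} (hf : Computable f) (hg : Computable g) :
    UD fun _ a => f a < g a :=
  UD.of_comp (p := fun x : ℕ × ℕ => x.1 < x.2) Primrec.nat_lt (hf.pair hg)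

theorem UD_Nx {p : (ℕ → Bool) → α → ℕ → Prop} (hp : UD fun B (x : α × ℕ) => p B x.1 x.2)
    {i j : α → ℕ} (hi : Computable i) (hj : Computable j) :
    UD fun B a => Nx (p B a) (i a) (j a) := by
  refine UD.and (UD_lt hi hj) (UD.and ?_ ?_)
  · exact hp.comp (f := fun a => (a, j a)) (Computable.id.pair hj)
  · have h1 : UD fun B a => ∀ k < j a, i a < k → ¬ p B a k := by
      refine UD.all_lt (p := fun B a k => i a < k → ¬ p B a k) (UD.imp ?_ hp.not) hj
      exact UD_lt (hi.comp Computable.fst) Computable.snd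
    refine h1.of_eq fun B a => ?_
    exact ⟨fun h k hk hk' => h k hk' hk, fun h k hk hk' => h k hk' hk⟩

end general

theorem seg_eq (x : ℕ → Bool) (i m : ℕ) :
    seg x i m = (List.range m).map fun t => (pre x (i + m)).getD (i + t) false := by
  unfold seg
  refine List.map_congr_left fun t ht => ?_
  rw [List.mem_range] at ht
  rw [pre_getD _ _ _ _ (by omega)]

theorem lab_UF : UF fun B (y : ℕ × ℕ × ℕ) => lab B y.1 y.2.1 y.2.2 := by
  have hm : Primrec fun y : List Bool × (ℕ × ℕ × ℕ) => y.2.2.2 - y.2.2.1 + y.2.1 + 1 := by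
    have h2 : Primrec fun y : List Bool × (ℕ × ℕ × ℕ) => y.2.2 := Primrec.snd.comp Primrec.snd
    exact Primrec.succ.comp (Primrec.nat_add.comp (Primrec.nat_sub.comp (Primrec.snd.comp h2)
      (Primrec.fst.comp h2)) (Primrec.fst.comp Primrec.snd))
  have hf : Primrec fun y : List Bool × (ℕ × ℕ × ℕ) =>
      encode ((List.range (y.2.2.2 - y.2.2.1 + y.2.1 + 1)).map
        fun t => y.1.getD (y.2.2.1 + t) false) := by
    refine Primrec.encode.comp (Primrec.list_map (Primrec.list_range.comp hm) ?_)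
    exact (Primrec.list_getD false).comp (Primrec.fst.comp Primrec.fst)
      (Primrec.nat_add.comp (Primrec.fst.comp (Primrec.snd.comp (Primrec.snd.comp Primrec.fst)))
        Primrec.snd)
  have hu : Computable fun y : ℕ × ℕ × ℕ => y.2.1 + (y.2.2 - y.2.1 + y.1 + 1) := by
    have h2 : Primrec fun y : ℕ × ℕ × ℕ => y.2.1 := Primrec.fst.comp Primrec.snd
    have h3 : Primrec fun y : ℕ × ℕ × ℕ => y.2.2 := Primrec.snd.comp Primrec.snd
    exact (Primrec.nat_add.comp h2 (Primrec.succ.comp (Primrec.nat_add.comp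
      (Primrec.nat_sub.comp h3 h2) Primrec.fst))).to_comp
  have h1 := UF.of_pre hf hu
  refine U1.of_eq h1 fun B y => ?_
  simp only [lab, seg_eq]

theorem labRel_UD {r : ℕ → ℕ → Prop} (hr : PrimrecPred fun x : ℕ × ℕ => r x.1 x.2) :
    UD fun B (y : (ℕ × ℕ × ℕ) × (ℕ × ℕ × ℕ)) =>
      r (lab B y.1.1 y.1.2.1 y.1.2.2) (lab B y.2.1 y.2.2.1 y.2.2.2) := by
  have h1 : UF fun B (y : (ℕ × ℕ × ℕ) × (ℕ × ℕ × ℕ)) => lab B y.1.1 y.1.2.1 y.1.2.2 :=
    lab_UF.comp Computable.fst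
  have h2 : UF fun B (y : ((ℕ × ℕ × ℕ) × (ℕ × ℕ × ℕ)) × ℕ) =>
      lab B y.1.2.1 y.1.2.2.1 y.1.2.2.2 :=
    lab_UF.comp (Computable.snd.comp Computable.fst)
  refine UF.pred (p := fun B (y : (ℕ × ℕ × ℕ) × (ℕ × ℕ × ℕ)) (v : ℕ) =>
    r v (lab B y.2.1 y.2.2.1 y.2.2.2)) h1 ?_
  refine UF.pred (α := ((ℕ × ℕ × ℕ) × (ℕ × ℕ × ℕ)) × ℕ) (p := fun _ x w => r x.2 w) h2 ?_
  exact (UD.of_prim hr).comp (f := fun x : (((ℕ × ℕ × ℕ) × (ℕ × ℕ × ℕ)) × ℕ) × ℕ => (x.1.2, x.2))
    ((Computable.snd.comp Computable.fst).pair Computable.snd)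

theorem nM_UD : UD fun W (x : ℕ × ℕ) => nM (evn W) (x.1 + 1) (gM x.1) (rd W) x.2 := by
  refine UD.and (UD.rd.comp Computable.snd) ?_
  have hg : Computable fun x : ℕ × ℕ => gM x.1 := gM_prim.to_comp.comp Computable.fst
  have hb : ∀ {α : Type} [Primcodable α] {f g : α → ℕ}, Computable f → Computable g →
      Computable fun a => f a + g a + 1 := fun hf hg => Computable.succ.comp (comp_add hf hg)
  -- the variables of the innermost predicate
  have hx : Computable fun y : (((ℕ × ℕ) × ℕ) × ℕ) × ℕ => y.1.1.1 :=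
    Computable.fst.comp (Computable.fst.comp Computable.fst)
  have hj : Computable fun y : (((ℕ × ℕ) × ℕ) × ℕ) × ℕ => y.1.1.2 :=
    Computable.snd.comp (Computable.fst.comp Computable.fst)
  have hk : Computable fun y : (((ℕ × ℕ) × ℕ) × ℕ) × ℕ => y.1.2 :=
    Computable.snd.comp Computable.fst
  have hl : Computable fun y : (((ℕ × ℕ) × ℕ) × ℕ) × ℕ => y.2 := Computable.snd
  have hn : Computable fun y : (((ℕ × ℕ) × ℕ) × ℕ) × ℕ => y.1.1.1.1 + 1 :=
    Computable.succ.comp (Computable.fst.comp hx)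
  have hi : Computable fun y : (((ℕ × ℕ) × ℕ) × ℕ) × ℕ => y.1.1.1.2 := Computable.snd.comp hx
  have hrd : UD fun W (z : ((((ℕ × ℕ) × ℕ) × ℕ) × ℕ) × ℕ) => rd W z.2 :=
    UD.rd.comp Computable.snd
  have hlab : ∀ {r : ℕ → ℕ → Prop}, (PrimrecPred fun x : ℕ × ℕ => r x.1 x.2) →
      ∀ {a b a' b' : (((ℕ × ℕ) × ℕ) × ℕ) × ℕ → ℕ}, Computable a → Computable b →
      Computable a' → Computable b' →
      UD fun W (y : (((ℕ × ℕ) × ℕ) × ℕ) × ℕ) =>
        r (lab (evn W) (y.1.1.1.1 + 1) (a y) (b y)) (lab (evn W) (y.1.1.1.1 + 1) (a' y) (b' y)) := by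
    intro r hr a b a' b' ha hb ha' hb'
    exact (UD.evn (labRel_UD hr)).comp (f := fun y : (((ℕ × ℕ) × ℕ) × ℕ) × ℕ =>
      ((y.1.1.1.1 + 1, (a y, b y)), (y.1.1.1.1 + 1, (a' y, b' y))))
      ((hn.pair (ha.pair hb)).pair (hn.pair (ha'.pair hb')))
  refine UD.all_lt (α := ℕ × ℕ) (p := fun W x j => ∀ k < j + gM x.1 + 1, ∀ l < k + gM x.1 + 1,
    Nx (rd W) x.2 j → Nx (rd W) j k → Nx (rd W) k l →
    lab (evn W) (x.1 + 1) x.2 j = lab (evn W) (x.1 + 1) j k ∨
      (lab (evn W) (x.1 + 1) x.2 j < lab (evn W) (x.1 + 1) j k ∧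
        lab (evn W) (x.1 + 1) k l < lab (evn W) (x.1 + 1) j k))
    (f := fun x => x.2 + gM x.1 + 1) ?_ (hb Computable.snd hg)
  refine UD.all_lt (α := (ℕ × ℕ) × ℕ) (p := fun W y k => ∀ l < k + gM y.1.1 + 1,
    Nx (rd W) y.1.2 y.2 → Nx (rd W) y.2 k → Nx (rd W) k l →
    lab (evn W) (y.1.1 + 1) y.1.2 y.2 = lab (evn W) (y.1.1 + 1) y.2 k ∨
      (lab (evn W) (y.1.1 + 1) y.1.2 y.2 < lab (evn W) (y.1.1 + 1) y.2 k ∧
        lab (evn W) (y.1.1 + 1) k l < lab (evn W) (y.1.1 + 1) y.2 k))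
    (f := fun y => y.2 + gM y.1.1 + 1) ?_ (hb Computable.snd (hg.comp Computable.fst))
  refine UD.all_lt (α := ((ℕ × ℕ) × ℕ) × ℕ) (p := fun W z l =>
    Nx (rd W) z.1.1.2 z.1.2 → Nx (rd W) z.1.2 z.2 → Nx (rd W) z.2 l →
    lab (evn W) (z.1.1.1 + 1) z.1.1.2 z.1.2 = lab (evn W) (z.1.1.1 + 1) z.1.2 z.2 ∨
      (lab (evn W) (z.1.1.1 + 1) z.1.1.2 z.1.2 < lab (evn W) (z.1.1.1 + 1) z.1.2 z.2 ∧
        lab (evn W) (z.1.1.1 + 1) z.2 l < lab (evn W) (z.1.1.1 + 1) z.1.2 z.2))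
    (f := fun z => z.2 + gM z.1.1.1 + 1) ?_
    (hb Computable.snd (hg.comp (Computable.fst.comp Computable.fst)))
  refine UD.imp ?_ (UD.imp ?_ (UD.imp ?_ (UD.or ?_ (UD.and ?_ ?_))))
  · exact UD_Nx (p := fun W (_ : (((ℕ × ℕ) × ℕ) × ℕ) × ℕ) => rd W) hrd hi hj
  · exact UD_Nx (p := fun W (_ : (((ℕ × ℕ) × ℕ) × ℕ) × ℕ) => rd W) hrd hj hk
  · exact UD_Nx (p := fun W (_ : (((ℕ × ℕ) × ℕ) × ℕ) × ℕ) => rd W) hrd hk hl
  · exact hlab (r := fun a b => a = b) (Primrec.eq.comp Primrec.fst Primrec.snd) hi hj hj hk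
  · exact hlab (r := fun a b => a < b) (Primrec.nat_lt.comp Primrec.fst Primrec.snd) hi hj hj hk
  · exact hlab (r := fun a b => a < b) (Primrec.nat_lt.comp Primrec.fst Primrec.snd) hk hl hj hk

theorem M_UD : UD fun B (x : ℕ × ℕ) => M B x.1 x.2 := by
  refine UD.iter' (Y := fun B n j => M B n j) (S := fun W (x : ℕ × ℕ) =>
    nM (evn W) (x.1 + 1) (gM x.1) (rd W) x.2) ?_ nM_UD ?_
  · exact UD.of_prim (PP.const True)
  · intro B n j
    simp only [evn_join, rd_join]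
    exact Iff.rfl

theorem bits_UD : UD fun B (y : ℕ × ℕ) => B y.1 = B y.2 := by
  have h1 : UD fun B (y : ℕ × ℕ) => (B y.1 = true ∧ B y.2 = true) ∨
      (¬ B y.1 = true ∧ ¬ B y.2 = true) :=
    UD.or (UD.and (UD.query.comp Computable.fst) (UD.query.comp Computable.snd))
      (UD.and (UD.query.comp Computable.fst).not (UD.query.comp Computable.snd).not)
  refine h1.of_eq fun B y => ?_
  cases B y.1 <;> cases B y.2 <;> simp

theorem nK_UD : UD fun W (x : ℕ × ℕ) => nK (evn W) (x.1 + 1) (gM x.1) (M (evn W) x.1)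
    (M (evn W) (x.1 + 1)) (rd W) x.2 := by
  have hg : Computable fun x : ℕ × ℕ => gM x.1 := gM_prim.to_comp.comp Computable.fst
  have hb : ∀ {α : Type} [Primcodable α] {f g : α → ℕ}, Computable f → Computable g →
      Computable fun a => f a + g a + 1 := fun hf hg => Computable.succ.comp (comp_add hf hg)
  have hM : ∀ {α : Type} [Primcodable α] {f g : α → ℕ}, Computable f → Computable g →
      UD fun W a => M (evn W) (f a) (g a) := fun {α} _ {f g} hf hg =>
    (UD.evn M_UD).comp (f := fun a => (f a, g a)) (hf.pair hg)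
  refine UD.or (UD.and (hM Computable.fst Computable.snd) (UD.and
    (hM (Computable.succ.comp Computable.fst) Computable.snd).not ?_)) (UD.and
      (UD.rd.comp Computable.snd) ?_)
  · refine UD.all_lt (α := ℕ × ℕ) (p := fun W x j => Nx (M (evn W) x.1) x.2 j →
      M (evn W) (x.1 + 1) j) (f := fun x => x.2 + gM x.1 + 1) (UD.imp ?_ ?_) (hb Computable.snd hg)
    · exact UD_Nx (p := fun W (x : (ℕ × ℕ) × ℕ) => M (evn W) x.1.1)
        (hM (Computable.fst.comp (Computable.fst.comp Computable.fst)) Computable.snd)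
        (Computable.snd.comp Computable.fst) Computable.snd
    · exact hM (Computable.succ.comp (Computable.fst.comp Computable.fst)) Computable.snd
  · refine UD.all_lt (α := ℕ × ℕ) (p := fun W x j => ∀ k < j + gM x.1 + 1,
      Nx (M (evn W) x.1) x.2 j → Nx (M (evn W) x.1) j k →
        M (evn W) (x.1 + 1) j ∧ M (evn W) (x.1 + 1) k ∧
          ∀ t < x.1 + 1, evn W (x.2 + t) = evn W (x.2 + (k - j) + t))
      (f := fun x => x.2 + gM x.1 + 1) ?_ (hb Computable.snd hg)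
    refine UD.all_lt (α := (ℕ × ℕ) × ℕ) (p := fun W y k =>
      Nx (M (evn W) y.1.1) y.1.2 y.2 → Nx (M (evn W) y.1.1) y.2 k →
        M (evn W) (y.1.1 + 1) y.2 ∧ M (evn W) (y.1.1 + 1) k ∧
          ∀ t < y.1.1 + 1, evn W (y.1.2 + t) = evn W (y.1.2 + (k - y.2) + t))
      (f := fun y => y.2 + gM y.1.1 + 1) ?_ (hb Computable.snd (hg.comp Computable.fst))
    have hn : Computable fun z : ((ℕ × ℕ) × ℕ) × ℕ => z.1.1.1 :=
      Computable.fst.comp (Computable.fst.comp Computable.fst)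
    have hi : Computable fun z : ((ℕ × ℕ) × ℕ) × ℕ => z.1.1.2 :=
      Computable.snd.comp (Computable.fst.comp Computable.fst)
    have hj : Computable fun z : ((ℕ × ℕ) × ℕ) × ℕ => z.1.2 := Computable.snd.comp Computable.fst
    have hk : Computable fun z : ((ℕ × ℕ) × ℕ) × ℕ => z.2 := Computable.snd
    refine UD.imp ?_ (UD.imp ?_ (UD.and ?_ (UD.and ?_ ?_)))
    · exact UD_Nx (p := fun W (z : ((ℕ × ℕ) × ℕ) × ℕ) => M (evn W) z.1.1.1)
        (hM (hn.comp Computable.fst) Computable.snd) hi hj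
    · exact UD_Nx (p := fun W (z : ((ℕ × ℕ) × ℕ) × ℕ) => M (evn W) z.1.1.1)
        (hM (hn.comp Computable.fst) Computable.snd) hj hk
    · exact hM (Computable.succ.comp hn) hj
    · exact hM (Computable.succ.comp hn) hk
    · refine UD.all_lt (α := ((ℕ × ℕ) × ℕ) × ℕ) (p := fun W z t =>
        evn W (z.1.1.2 + t) = evn W (z.1.1.2 + (z.2 - z.1.2) + t)) (f := fun z => z.1.1.1 + 1) ?_
        (Computable.succ.comp hn)
      refine (UD.evn bits_UD).comp (f := fun z : (((ℕ × ℕ) × ℕ) × ℕ) × ℕ =>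
        (z.1.1.1.2 + z.2, z.1.1.1.2 + (z.1.2 - z.1.1.2) + z.2)) ?_
      have hi' := hi.comp (Computable.fst (α := ((ℕ × ℕ) × ℕ) × ℕ) (β := ℕ))
      exact (comp_add hi' Computable.snd).pair (comp_add (comp_add hi' (comp_sub
        (hk.comp Computable.fst) (hj.comp Computable.fst))) Computable.snd)

theorem K_UD : UD fun B (x : ℕ × ℕ) => K B x.1 x.2 := by
  refine UD.iter' (Y := fun B n j => K B n j) (S := fun W (x : ℕ × ℕ) =>
    nK (evn W) (x.1 + 1) (gM x.1) (M (evn W) x.1) (M (evn W) (x.1 + 1)) (rd W) x.2) ?_ nK_UD ?_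
  · exact UD.of_prim (PP.const True)
  · intro B n j
    simp only [evn_join, rd_join]
    exact Iff.rfl

theorem Fst_UD : UD fun B (x : ℕ × ℕ) => Fst B x.1 x.2 := by
  refine UD.and K_UD ?_
  refine UD.all_lt (α := ℕ × ℕ) (p := fun B x j => ¬ K B x.1 j) (f := fun x => x.2) (UD.not ?_)
    Computable.snd
  exact K_UD.comp (f := fun y : (ℕ × ℕ) × ℕ => (y.1.1, y.2))
    ((Computable.fst.comp Computable.fst).pair Computable.snd)

end Pool.Agent.V7H75.TE
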