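import Pool.Agent.V7H75.TE.Ray

set_option autoImplicit false

/-!
A position is a cut finitely often only, unless the sequence is periodic from there on; in a
periodic sequence all the cuts of a high level are at the same point.
-/

namespace Pool.Agent.V7H75.TE

open Encodable Pool.Agent.Helper227

/-- the sequence without its first `d` members -/
def sh (x : ℕ → Bool) (d : ℕ) : ℕ → Bool := fun t => x (d + t)

theorem sh_sh (x : ℕ → Bool) (d e : ℕ) : sh (sh x d) e = sh x (d + e) := by
  funext t
  simp only [sh, Nat.add_assoc]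

theorem sh_zero (x : ℕ → Bool) : sh x 0 = x := by
  funext t
  simp [sh]

theorem sh_add {x : ℕ → Bool} {i j : ℕ} (h : sh x i = sh x j) (d : ℕ) :
    sh x (i + d) = sh x (j + d) := by
  rw [← sh_sh, ← sh_sh, h]

theorem lab_sh (x : ℕ → Bool) (d n i j : ℕ) : lab (sh x d) n i j = lab x n (d + i) (d + j) := by
  unfold lab seg sh
  rw [show d + j - (d + i) = j - i by omega]
  congr 2
  funext t
  rw [Nat.add_assoc]

theorem Nx_sh {P P' : ℕ → Prop} {d : ℕ} (h : ∀ i, P' i ↔ P (d + i)) {i j : ℕ} :
    Nx P' i j ↔ Nx P (d + i) (d + j) := by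
  constructor
  · rintro ⟨h1, h2, h3⟩
    refine ⟨by omega, (h j).1 h2, fun k hk hk' hp => h3 (k - d) (by omega) (by omega) ?_⟩
    rw [h, show d + (k - d) = k by omega]
    exact hp
  · rintro ⟨h1, h2, h3⟩
    exact ⟨by omega, (h j).2 h2, fun k hk hk' hp => h3 (d + k) (by omega) (by omega) ((h k).1 hp)⟩

theorem M_sh (x : ℕ → Bool) (d n : ℕ) : ∀ i, M (sh x d) n i ↔ M x n (d + i) := by
  induction n with
  | zero => intro i; exact Iff.rfl
  | succ n ih =>
    intro i
    obtain ⟨j, h1, -⟩ := NxM (sh x d) n i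
    obtain ⟨k, h2, -⟩ := NxM (sh x d) n j
    obtain ⟨l, h3, -⟩ := NxM (sh x d) n k
    rw [M_succ h1 h2 h3, M_succ ((Nx_sh ih).1 h1) ((Nx_sh ih).1 h2) ((Nx_sh ih).1 h3), ih,
      lab_sh, lab_sh, lab_sh]

theorem K_sh (x : ℕ → Bool) (d n : ℕ) : ∀ i, K (sh x d) n i ↔ K x n (d + i) := by
  induction n with
  | zero => intro i; exact Iff.rfl
  | succ n ih =>
    intro i
    obtain ⟨j, h1, -⟩ := NxM (sh x d) n i
    obtain ⟨k, h2, -⟩ := NxM (sh x d) n j
    have hM := M_sh x d n
    rw [K_succ h1 h2, K_succ ((Nx_sh hM).1 h1) ((Nx_sh hM).1 h2), ih, hM, M_sh, M_sh, M_sh,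
      show d + k - (d + j) = k - j by omega]
    refine or_congr Iff.rfl (and_congr_right fun _ => and_congr_right fun _ =>
      and_congr_right fun _ => forall_congr' fun t => forall_congr' fun _ => ?_)
    unfold sh
    rw [show d + (i + t) = d + i + t by omega, show d + (i + (k - j) + t) = d + i + (k - j) + t by omega]

theorem M_pt {x : ℕ → Bool} {n i j : ℕ} (h : sh x i = sh x j) (d : ℕ) :
    M x n (i + d) ↔ M x n (j + d) := by
  rw [← M_sh, ← M_sh, h]

theorem M_pt' {x : ℕ → Bool} {n i j : ℕ} (h : sh x i = sh x j) : M x n i ↔ M x n j := M_pt h 0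

theorem Nx_pt {x : ℕ → Bool} {n i j d : ℕ} (h : sh x i = sh x j) (h1 : Nx (M x n) i (i + d)) :
    Nx (M x n) j (j + d) := by
  have h2 : Nx (M (sh x i) n) 0 d := (Nx_sh (M_sh x i n)).2 h1
  rw [h] at h2
  exact (Nx_sh (M_sh x j n)).1 h2

/-- a point which is cut infinitely often is periodic -/
theorem persistent {x : ℕ → Bool} {i : ℕ} (h : ∀ N, ∃ n ≥ N, K x n i) :
    ∃ p > 0, ∀ t, x (i + t) = x (i + p + t) := by
  obtain ⟨n0, hn0⟩ : ∃ n0, ∀ n ≥ n0, ¬ (M x n i ∧ ¬ M x (n + 1) i) := by
    by_cases hm : ∃ m, ¬ M x m i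
    · obtain ⟨m, hm⟩ := hm
      exact ⟨m, fun n hn hc => hm (M_anti hn hc.1)⟩
    · push Not at hm
      exact ⟨0, fun n _ hc => hc.2 (hm _)⟩
  have key : ∀ n ≥ n0, K x (n + 1) i → ∀ j k, Nx (M x n) i j → Nx (M x n) j k →
      K x n i ∧ M x (n + 1) j ∧ M x (n + 1) k ∧ ∀ t < n + 1, x (i + t) = x (i + (k - j) + t) := by
    intro n hn hK j k h1 h2
    rcases (K_succ h1 h2).1 hK with h3 | h3
    · exact absurd ⟨h3.1, h3.2.1⟩ (hn0 n hn)
    · exact h3
  have hall : ∀ n ≥ n0, K x n i := by
    intro n hn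
    obtain ⟨N, hN, hK⟩ := h n
    obtain ⟨d, rfl⟩ := Nat.exists_eq_add_of_le hN
    clear hN
    induction d with
    | zero => exact hK
    | succ d ih =>
      obtain ⟨j, h1, -⟩ := NxM x (n + d) i
      obtain ⟨k, h2, -⟩ := NxM x (n + d) j
      exact ih (key (n + d) (by omega) hK j k h1 h2).1
  obtain ⟨j, h1, -⟩ := NxM x n0 i
  obtain ⟨k, h2, -⟩ := NxM x n0 j
  have h3 : ∀ n ≥ n0, Nx (M x n) i j ∧ Nx (M x n) j k := by
    intro n hn
    induction n, hn using Nat.le_induction with
    | base => exact ⟨h1, h2⟩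
    | succ n hn ih =>
      obtain ⟨-, h4, h5, -⟩ := key n hn (hall (n + 1) (by omega)) j k ih.1 ih.2
      exact ⟨⟨ih.1.1, h4, fun m hm hm' hp => ih.1.2.2 m hm hm' hp.1⟩,
        ⟨ih.2.1, h5, fun m hm hm' hp => ih.2.2.2 m hm hm' hp.1⟩⟩
  refine ⟨k - j, by have := h2.1; omega, fun t => ?_⟩
  have h4 := h3 (n0 + t) (by omega)
  exact (key (n0 + t) (by omega) (hall (n0 + t + 1) (by omega)) j k h4.1 h4.2).2.2.2 t (by omega)

/-- all the positions in `Q` are at the same point -/
def One (x : ℕ → Bool) (Q : ℕ → Prop) : Prop := ∀ i j, Q i → Q j → sh x i = sh x j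

section one

variable {x : ℕ → Bool} {n : ℕ}

theorem One.keep (h : One x (M x n)) {i : ℕ} (hi : M x n i) : M x (n + 1) i := by
  obtain ⟨j, h1, -⟩ := NxM x n i
  obtain ⟨k, h2, -⟩ := NxM x n j
  obtain ⟨l, h3, -⟩ := NxM x n k
  refine (M_succ h1 h2 h3).2 ⟨hi, Or.inl ?_⟩
  have h4 := h i j hi h1.2.1
  have h5 : Nx (M x n) i (i + (j - i)) := by
    rwa [show i + (j - i) = j by have := h1.1; omega]
  have h6 := (Nx_pt h4 h5).uniq h2
  have h7 := h1.1
  unfold lab
  rw [← h6, show j + (j - i) - j = j - i by omega,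
    seg_congr (x := x) (i := i) (j := j) fun t => congrFun h4 t]

theorem One.next (h : One x (M x n)) : One x (M x (n + 1)) :=
  fun i j hi hj => h i j hi.1 hj.1

theorem One.K_sub (h : One x (M x n)) {i : ℕ} (hi : K x (n + 1) i) : K x n i := by
  obtain ⟨j, h1, -⟩ := NxM x n i
  obtain ⟨k, h2, -⟩ := NxM x n j
  rcases (K_succ h1 h2).1 hi with h3 | h3
  · exact absurd (h.keep h3.1) h3.2.1
  · exact h3.1

end one

section periodic

variable {x : ℕ → Bool} {p : ℕ}

theorem sh_per (hx : ∀ t, x (p + t) = x t) (i N : ℕ) : sh x (i + p * N) = sh x i := by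
  induction N with
  | zero => rfl
  | succ N ih =>
    rw [← ih]
    funext t
    unfold sh
    rw [show i + p * (N + 1) + t = p + (i + p * N + t) by ring]
    exact hx _

theorem sh_cancel (hp : 0 < p) (hx : ∀ t, x (p + t) = x t) {a b d : ℕ}
    (h : sh x (a + d) = sh x (b + d)) : sh x a = sh x b := by
  have h1 : d ≤ p * d := Nat.le_mul_of_pos_left d hp
  have h2 := sh_add h (p * d - d)
  rw [show a + d + (p * d - d) = a + p * d by omega, show b + d + (p * d - d) = b + p * d by omega,
    sh_per hx, sh_per hx] at h2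
  exact h2

theorem one_of_next (hp : 0 < p) (hx : ∀ t, x (p + t) = x t) {n j k : ℕ} (h : Nx (M x n) j k)
    (h' : sh x j = sh x k) : One x (M x n) := by
  have hjk := h.1
  have key : ∀ i, j ≤ i → M x n i → sh x i = sh x j := by
    intro i
    induction i using Nat.strong_induction_on with
    | _ i ih =>
      intro hi hM
      rcases Nat.lt_or_eq_of_le hi with h1 | h1
      · have h2 : k ≤ i := by
          by_contra hc
          exact h.2.2 i h1 (by omega) hM
        have h3 : sh x (j + (i - k)) = sh x i := by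
          have := sh_add h' (i - k)
          rwa [show k + (i - k) = i by omega] at this
        have h4 : M x n (j + (i - k)) := (M_pt' h3).2 hM
        rw [← h3]
        exact ih (j + (i - k)) (by omega) (by omega) h4
      · rw [h1]
  have key' : ∀ i, M x n i → sh x i = sh x j := by
    intro i hi
    have h1 : j ≤ p * j := Nat.le_mul_of_pos_left j hp
    have h2 := sh_per hx i j
    rw [← h2]
    exact key _ (by omega) ((M_pt' h2).2 hi)
  intro a b ha hb
  rw [key' a ha, key' b hb]

theorem one_K (hp : 0 < p) (hx : ∀ t, x (p + t) = x t) {m : ℕ} (h0 : ¬ One x (M x m))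
    (h1 : One x (M x (m + 1))) : One x (K x (m + 1)) := by
  have key : ∀ y, K x (m + 1) y → ∃ j, Nx (M x m) y j ∧ M x m y ∧ M x (m + 1) j := by
    intro y hy
    obtain ⟨j, h2, -⟩ := NxM x m y
    obtain ⟨k, h3, -⟩ := NxM x m j
    rcases (K_succ h2 h3).1 hy with h4 | h4
    · exact ⟨j, h2, h4.1, h4.2.2⟩
    · exact absurd (one_of_next hp hx h3 (h1 j k h4.2.1 h4.2.2.1)) h0
  have key2 : ∀ y j y' j', Nx (M x m) y j → M x m y → Nx (M x m) y' j' → sh x j = sh x j' →
      ¬ j - y < j' - y' := by
    intro y j y' j' h2 h3 h4 h5 h6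
    have h7 : sh x y = sh x (j' - (j - y)) := by
      apply sh_cancel hp hx (d := j - y)
      have := h2.1
      rw [show y + (j - y) = j by omega, show j' - (j - y) + (j - y) = j' by omega, h5]
    exact h4.2.2 (j' - (j - y)) (by omega) (by have := h2.1; omega) ((M_pt' h7).1 h3)
  intro y y' hy hy'
  obtain ⟨j, h2, h3, h4⟩ := key y hy
  obtain ⟨j', h2', h3', h4'⟩ := key y' hy'
  have h5 := h1 j j' h4 h4'
  have h6 := key2 y j y' j' h2 h3 h2' h5
  have h7 := key2 y' j' y j h2' h3' h2 h5.symm
  have h8 := h2.1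
  have h9 := h2'.1
  apply sh_cancel hp hx (d := j - y)
  rw [show y + (j - y) = j by omega, show y' + (j - y) = j' by omega, h5]

theorem exists_one (hp : 0 < p) (hx : ∀ t, x (p + t) = x t) : ∃ n, One x (M x n) := by
  classical
  by_contra hcon
  push Not at hcon
  have hmod : ∀ i, sh x (i % p) = sh x i := by
    intro i
    have := sh_per hx (i % p) (i / p)
    rwa [Nat.mod_add_div, eq_comm] at this
  have step : ∀ n ≥ p, ((Finset.range p).filter (M x (n + 1))).card <
      ((Finset.range p).filter (M x n)).card := by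
    intro n hn
    apply Finset.card_lt_card
    refine ⟨fun i hi => ?_, fun hsub => hcon n ?_⟩
    · rw [Finset.mem_filter] at hi ⊢
      exact ⟨hi.1, hi.2.1⟩
    · have hk : ∀ i, M x n i → M x (n + 1) i := by
        intro i hi
        have h1 : i % p ∈ (Finset.range p).filter (M x n) := by
          rw [Finset.mem_filter, Finset.mem_range]
          exact ⟨Nat.mod_lt _ hp, (M_pt' (hmod i)).2 hi⟩
        have h2 := hsub h1
        rw [Finset.mem_filter] at h2
        exact (M_pt' (hmod i)).1 h2.2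
      obtain ⟨i, h1, -⟩ := NxM x n 0
      obtain ⟨j, h2, -⟩ := NxM x n i
      obtain ⟨k, h3, -⟩ := NxM x n j
      refine one_of_next hp hx h2 ?_
      have h4 := (lab_eq (kept h2 h3 (hk i h1.2.1) (hk j h2.2.1))).2
      funext t
      have h5 : ∀ a t, x (a + t) = x (a + t % p) := by
        intro a t
        have := congrFun (sh_per hx (a + t % p) (t / p)) 0
        unfold sh at this
        rw [Nat.add_zero, Nat.add_zero] at this
        rw [← this]
        congr 1
        have := Nat.mod_add_div t p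
        omega
      unfold sh
      rw [h5 i t, h5 j t]
      have h6 := Nat.mod_lt t hp
      exact h4 _ (by omega)
  have key : ∀ k, ((Finset.range p).filter (M x (p + k))).card + k ≤
      ((Finset.range p).filter (M x p)).card := by
    intro k
    induction k with
    | zero => exact le_rfl
    | succ k ih =>
      have := step (p + k) (by omega)
      rw [show p + (k + 1) = p + k + 1 by omega]
      omega
  have := key (((Finset.range p).filter (M x p)).card + 1)
  omega

/-- in a periodic sequence the cuts are finally at one point -/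
theorem one_eventually (hp : 0 < p) (hx : ∀ t, x (p + t) = x t) :
    ∃ N, ∀ n ≥ N, One x (K x n) := by
  classical
  have hex := exists_one hp hx
  have hM : ∀ n ≥ Nat.find hex, One x (M x n) := by
    intro n hn
    induction n, hn using Nat.le_induction with
    | base => exact Nat.find_spec hex
    | succ n hn ih => exact ih.next
  refine ⟨Nat.find hex, fun n hn => ?_⟩
  induction n, hn using Nat.le_induction with
  | base =>
    rcases hf : Nat.find hex with _ | m
    · have h1 := Nat.find_spec hex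
      rw [hf] at h1
      exact fun i j _ _ => h1 i j trivial trivial
    · have h1 := Nat.find_spec hex
      rw [hf] at h1
      exact one_K hp hx (Nat.find_min hex (m := m) (by omega)) h1
  | succ n hn ih => exact fun i j hi hj => ih i j ((hM n hn).K_sub hi) ((hM n hn).K_sub hj)

end periodic

/-- `a` is the first cut -/
def Fst (x : ℕ → Bool) (n a : ℕ) : Prop := K x n a ∧ ∀ j < a, ¬ K x n j

theorem Fst.uniq {x : ℕ → Bool} {n a b : ℕ} (h : Fst x n a) (h' : Fst x n b) : a = b := by
  rcases lt_trichotomy a b with h1 | h1 | h1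
  · exact absurd h.1 (h'.2 a h1)
  · exact h1
  · exact absurd h'.1 (h.2 b h1)

theorem exists_Fst (x : ℕ → Bool) (n : ℕ) : ∃ a, Fst x n a ∧ a ≤ gK n := by
  classical
  obtain ⟨j, -, h2, h3⟩ := gapK x n 0
  have hex : ∃ j, K x n j := ⟨j, h3⟩
  exact ⟨Nat.find hex, ⟨Nat.find_spec hex, fun k hk => Nat.find_min hex hk⟩,
    (Nat.find_min' hex h3).trans (by omega)⟩

/-- finally the first cut is the same point for a sequence and its shift -/
theorem link (x : ℕ → Bool) : ∃ N, ∀ n ≥ N, ∀ a b, Fst x n a → Fst (sh x 1) n b →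
    sh x a = sh (sh x 1) b := by
  by_cases h : ∀ N, ∃ n ≥ N, K x n 0
  · obtain ⟨p, hp, h1⟩ := persistent h
    obtain ⟨N, hN⟩ := one_eventually (x := x) hp fun t => by
      have := h1 t
      rw [Nat.zero_add, Nat.zero_add] at this
      exact this.symm
    refine ⟨N, fun n hn a b ha hb => ?_⟩
    rw [sh_sh]
    exact hN n hn a (1 + b) ha.1 ((K_sh x 1 n b).1 hb.1)
  · push Not at h
    obtain ⟨N, hN⟩ := h
    refine ⟨N, fun n hn a b ha hb => ?_⟩
    have h1 : 1 ≤ a := by
      by_contra hc
      have h2 : a = 0 := by omega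
      rw [h2] at ha
      exact hN n hn ha.1
    have h2 : Fst (sh x 1) n (a - 1) := by
      refine ⟨?_, fun j hj => ?_⟩
      · rw [K_sh, show 1 + (a - 1) = a by omega]
        exact ha.1
      · rw [K_sh]
        exact ha.2 (1 + j) (by omega)
    rw [hb.uniq h2, sh_sh, show 1 + (a - 1) = a by omega]

end Pool.Agent.V7H75.TE
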