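import Pool.Agent.V7H75.TE.Eff

set_option autoImplicit false

/-!
Solutions to Post's problem which are invariant under tail equivalence.
-/

namespace Pool.Agent.V7H75.TE

open Encodable Pool.Agent.Helper227
open Pool.Agent.V7H75.HF
open Pool.Agent.H548R2.Post (chr)
open Pool.Agent.H869R3.RT (PostIndex)

/-- the sequence `Y` after the word `w` -/
def app (w : List Bool) (Y : ℕ → Bool) : ℕ → Bool :=
  fun n => if n < w.length then w.getD n false else Y (n - w.length)

theorem app_nil (Y : ℕ → Bool) : app [] Y = Y := by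
  funext n
  simp [app]

theorem sh_app (w : List Bool) (Y : ℕ → Bool) : sh (app w Y) w.length = Y := by
  funext n
  simp [sh, app]

theorem app_pre (Y : ℕ → Bool) (b : ℕ) : app (pre Y b) (sh Y b) = Y := by
  funext n
  unfold app sh
  rw [length_pre]
  split_ifs with h
  · exact pre_getD _ _ _ _ h
  · congr 1
    omega

/-- the word `w` without its first `a` letters -/
def drp (a : ℕ) (w : List Bool) : List Bool :=
  (List.range (w.length - a)).map fun t => w.getD (a + t) false

theorem drp_length (a : ℕ) (w : List Bool) : (drp a w).length = w.length - a := by simp [drp]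

theorem drp_getD {a : ℕ} {w : List Bool} {t : ℕ} (h : t < w.length - a) :
    (drp a w).getD t false = w.getD (a + t) false := by
  unfold drp
  rw [List.getD_eq_getElem?_getD, List.getElem?_map, List.getElem?_range h]
  rfl

theorem app_app (w w' : List Bool) (a : ℕ) (Y : ℕ → Bool) :
    app w (sh (app w' Y) a) = app (w ++ drp a w') (sh Y (a - w'.length)) := by
  funext n
  unfold app sh
  simp only [List.length_append, drp_length]
  by_cases h1 : n < w.length
  · rw [if_pos h1, if_pos (by omega), List.getD_append _ _ _ _ h1]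
  · rw [if_neg h1]
    by_cases h2 : a + (n - w.length) < w'.length
    · rw [if_pos h2, if_pos (by omega), List.getD_append_right _ _ _ _ (by omega),
        drp_getD (by omega)]
    · rw [if_neg h2, if_neg (by omega)]
      congr 1
      omega

/-- the pair with the code `k` -/
def dk (k : ℕ) : List Bool × ℕ := (decode k : Option (List Bool × ℕ)).getD ([], 0)

theorem dk_encode (p : List Bool × ℕ) : dk (encode p) = p := by simp [dk]

theorem dk_zero : dk 0 = ([], 0) := by
  have h : encode (([], 0) : List Bool × ℕ) = 0 := by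
    show Nat.pair (encode ([] : List Bool)) (encode (0 : ℕ)) = 0
    simp [Nat.pair]
  have h1 := dk_encode ([], 0)
  rwa [h] at h1

theorem dk_prim : Primrec dk :=
  Primrec.option_getD.comp Primrec.decode (Primrec.const ([], 0))

/-- the map with the number `k` -/
def Tk (k : ℕ) (X : ℕ → Bool) : ℕ → Bool := app (dk k).1 (sh X (dk k).2)

/-- multiplication of the indices -/
def mk (j k : ℕ) : ℕ :=
  encode ((dk j).1 ++ drp (dk j).2 (dk k).1, (dk k).2 + ((dk j).2 - (dk k).1.length))

theorem Tk_comp (j k : ℕ) (X : ℕ → Bool) : Tk j (Tk k X) = Tk (mk j k) X := by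
  unfold Tk mk
  rw [dk_encode, app_app, sh_sh]

/-- the bounds -/
def ck (n : ℕ) : ℕ := (max (bd (gK n)) (gK n) + 1) * (max (bd (gK n)) (gK n) + 1)

/-- the indices of the members of the class -/
def Rk (n : ℕ) (X : ℕ → Bool) (k : ℕ) : Prop :=
  Fst X n (dk k).2 ∧ Fst (Tk k X) n (dk k).1.length

theorem mem_Cl {n : ℕ} {X Y : ℕ → Bool} :
    Y ∈ Cl ck Tk Rk n X ↔ ∃ a b, Fst X n a ∧ Fst Y n b ∧ sh X a = sh Y b := by
  constructor
  · rintro ⟨k, -, ⟨h1, h2⟩, rfl⟩
    exact ⟨_, _, h1, h2, (sh_app _ _).symm⟩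
  · rintro ⟨a, b, h1, h2, h3⟩
    have h4 : Tk (encode (pre Y b, a)) X = Y := by
      unfold Tk
      rw [dk_encode, h3, app_pre]
    refine ⟨encode (pre Y b, a), ?_, ⟨?_, ?_⟩, h4.symm⟩
    · have h5 : encode (pre Y b, a) = Nat.pair (encode (pre Y b)) a := rfl
      have h6 := Nat.pair_lt_max_add_one_sq (encode (pre Y b)) a
      obtain ⟨a', h7, h8⟩ := exists_Fst X n
      obtain ⟨b', h9, h10⟩ := exists_Fst Y n
      rw [← h1.uniq h7] at h8
      rw [← h2.uniq h9] at h10
      have h11 : encode (pre Y b) ≤ bd (gK n) := by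
        refine (encode_le_bd _).trans ?_
        rw [length_pre]
        exact bd_mono h10
      have h12 : max (encode (pre Y b)) a ≤ max (bd (gK n)) (gK n) := max_le_max h11 h8
      rw [h5]
      refine h6.trans_le ?_
      rw [ck, sq]
      exact Nat.mul_le_mul (by omega) (by omega)
    · rw [dk_encode]
      exact h1
    · rw [h4, dk_encode, length_pre]
      exact h2

theorem sys : Sys mk ck Tk Rk where
  comp j k X := Tk_comp j k X
  one X := by
    unfold Tk
    rw [dk_zero, app_nil, sh_zero]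
  self n X := by
    obtain ⟨a, h1, -⟩ := exists_Fst X n
    exact mem_Cl.2 ⟨a, a, h1, h1, rfl⟩
  eq n X Y h := by
    obtain ⟨a, b, h1, h2, h3⟩ := mem_Cl.1 h
    ext Z
    rw [mem_Cl, mem_Cl]
    constructor
    · rintro ⟨b', c, h4, h5, h6⟩
      obtain rfl := h2.uniq h4
      exact ⟨a, c, h1, h5, h3.trans h6⟩
    · rintro ⟨a', c, h4, h5, h6⟩
      obtain rfl := h1.uniq h4
      exact ⟨b, c, h2, h5, h3.symm.trans h6⟩

theorem Tk_UD : UD fun B (x : ℕ × ℕ) => Tk x.1 B x.2 = true := by
  have hw : Primrec fun x : ℕ × ℕ => (dk x.1).1 := Primrec.fst.comp (dk_prim.comp Primrec.fst)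
  have hl : Primrec fun x : ℕ × ℕ => (dk x.1).1.length := Primrec.list_length.comp hw
  have ha : Primrec fun x : ℕ × ℕ => (dk x.1).2 := Primrec.snd.comp (dk_prim.comp Primrec.fst)
  have h1 : UD fun B (x : ℕ × ℕ) => (x.2 < (dk x.1).1.length ∧ (dk x.1).1.getD x.2 false = true) ∨
      (¬ x.2 < (dk x.1).1.length ∧ B ((dk x.1).2 + (x.2 - (dk x.1).1.length)) = true) := by
    have h0 : UD fun (_ : ℕ → Bool) (x : ℕ × ℕ) => x.2 < (dk x.1).1.length :=
      UD.of_prim (Primrec.nat_lt.comp Primrec.snd hl)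
    refine UD.or (UD.and h0 (UD.of_prim ?_)) (UD.and h0.not ?_)
    · exact Primrec.eq.comp ((Primrec.list_getD false).comp hw Primrec.snd) (Primrec.const true)
    · exact UD.query.comp (Primrec.nat_add.comp ha (Primrec.nat_sub.comp Primrec.snd hl)).to_comp
  refine h1.of_eq fun B x => ?_
  unfold Tk app sh
  split_ifs with h
  · simp [h]
  · simp [h]

theorem mk_comp : Computable₂ mk := by
  have hw : Primrec fun x : ℕ × ℕ => (dk x.1).1 := Primrec.fst.comp (dk_prim.comp Primrec.fst)
  have ha : Primrec fun x : ℕ × ℕ => (dk x.1).2 := Primrec.snd.comp (dk_prim.comp Primrec.fst)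
  have hw' : Primrec fun x : ℕ × ℕ => (dk x.2).1 := Primrec.fst.comp (dk_prim.comp Primrec.snd)
  have ha' : Primrec fun x : ℕ × ℕ => (dk x.2).2 := Primrec.snd.comp (dk_prim.comp Primrec.snd)
  have hl' : Primrec fun x : ℕ × ℕ => (dk x.2).1.length := Primrec.list_length.comp hw'
  have hd : Primrec fun x : ℕ × ℕ => drp (dk x.1).2 (dk x.2).1 := by
    refine Primrec.list_map (Primrec.list_range.comp (Primrec.nat_sub.comp hl' ha)) ?_
    exact (Primrec.list_getD false).comp (hw'.comp Primrec.fst)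
      (Primrec.nat_add.comp (ha.comp Primrec.fst) Primrec.snd)
  have h : Primrec fun x : ℕ × ℕ => mk x.1 x.2 :=
    Primrec.encode.comp ((Primrec.list_append.comp hw hd).pair
      (Primrec.nat_add.comp ha' (Primrec.nat_sub.comp ha hl')))
  exact h.to_comp

theorem Rk_UD : UD fun B (x : ℕ × ℕ) => Rk x.1 B x.2 := by
  have hd : Primrec fun x : ℕ × ℕ => dk x.2 := dk_prim.comp Primrec.snd
  refine UD.and ?_ ?_
  · exact Fst_UD.comp (f := fun x : ℕ × ℕ => (x.1, (dk x.2).2))
      (Primrec.fst.pair (Primrec.snd.comp hd)).to_comp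
  · have h1 : UD fun B (x : ℕ × (ℕ × ℕ)) => Fst (Tk x.1 B) x.2.1 x.2.2 :=
      UD.sub (F := fun B k => Tk k B) Tk_UD Fst_UD
    exact h1.comp (f := fun x : ℕ × ℕ => (x.2, (x.1, (dk x.2).1.length)))
      (Primrec.snd.pair (Primrec.fst.pair (Primrec.list_length.comp (Primrec.fst.comp hd)))).to_comp

/-- a solution to Post's problem which is invariant under tail equivalence -/
theorem main : ∃ e : ℕ, PostIndex e ∧ ∀ (X Y : ℕ → Bool) (a b : ℕ),
    (∀ n, X (a + n) = Y (b + n)) → TLe (chr (WE X e)) (chr (WE Y e)) := by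
  have hc : Computable ck := by
    have h1 : Primrec fun n : ℕ => max (bd (gK n)) (gK n) + 1 :=
      Primrec.succ.comp (Primrec.nat_max.comp (bd_prim.comp gK_prim) gK_prim)
    exact (Primrec.nat_mul.comp h1 h1).to_comp
  obtain ⟨e, h1, h2⟩ := main_sys sys mk_comp hc Tk_UD Rk_UD
  have h3 : ∀ X : ℕ → Bool, TLe (chr (WE X e)) (chr (WE (sh X 1) e)) ∧
      TLe (chr (WE (sh X 1) e)) (chr (WE X e)) := by
    intro X
    apply h2
    obtain ⟨N, hN⟩ := link X
    refine ⟨N, fun n hn => mem_Cl.2 ?_⟩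
    obtain ⟨a, ha, -⟩ := exists_Fst X n
    obtain ⟨b, hb, -⟩ := exists_Fst (sh X 1) n
    exact ⟨a, b, ha, hb, hN n hn a b ha hb⟩
  have h4 : ∀ (a : ℕ) (X : ℕ → Bool), TLe (chr (WE X e)) (chr (WE (sh X a) e)) ∧
      TLe (chr (WE (sh X a) e)) (chr (WE X e)) := by
    intro a
    induction a with
    | zero =>
      intro X
      rw [sh_zero]
      exact ⟨TuringReducible.refl _, TuringReducible.refl _⟩
    | succ a ih =>
      intro X
      have h5 := ih X
      have h6 := h3 (sh X a)
      rw [sh_sh] at h6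
      exact ⟨TuringReducible.trans h5.1 h6.1, TuringReducible.trans h6.2 h5.2⟩
  refine ⟨e, h1, fun X Y a b h => ?_⟩
  have h5 : sh X a = sh Y b := funext h
  have h6 := (h4 a X).1
  rw [h5] at h6
  exact TuringReducible.trans h6 (h4 b Y).2

end Pool.Agent.V7H75.TE
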