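import Pool.Agent.Helper227.Use

set_option autoImplicit false

/-!
Markers and cuts on the positions of a sequence, where the status of a position depends on the
rest of the sequence only.
-/

namespace Pool.Agent.V7H75.TE

open Encodable Pool.Agent.Helper227

/-- `j` is the next element of `P` after `i` -/
def Nx (P : ℕ → Prop) (i j : ℕ) : Prop := i < j ∧ P j ∧ ∀ k, i < k → k < j → ¬ P k

theorem Nx.uniq {P : ℕ → Prop} {i j k : ℕ} (h : Nx P i j) (h' : Nx P i k) : j = k := by
  rcases lt_trichotomy j k with h1 | h1 | h1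
  · exact absurd h.2.1 (h'.2.2 j h.1 h1)
  · exact h1
  · exact absurd h'.2.1 (h.2.2 k h'.1 h1)

theorem exists_Nx {P : ℕ → Prop} {i b : ℕ} (h : ∃ j, i < j ∧ j ≤ i + b ∧ P j) :
    ∃ j, Nx P i j ∧ j ≤ i + b := by
  classical
  obtain ⟨j, h1, h2, h3⟩ := h
  have hex : ∃ j, i < j ∧ P j := ⟨j, h1, h3⟩
  refine ⟨Nat.find hex, ⟨(Nat.find_spec hex).1, (Nat.find_spec hex).2, fun k hk hk' hp =>
    Nat.find_min hex hk' ⟨hk, hp⟩⟩, (Nat.find_min' hex ⟨h1, h3⟩).trans h2⟩

/-- the last element of `P` before `w` -/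
theorem exists_prev {P : ℕ → Prop} {z w : ℕ} (hz : P z) (hw : P w) (h : z < w) :
    ∃ y, z ≤ y ∧ P y ∧ Nx P y w := by
  classical
  have h1 : ∃ d, d < w - z ∧ P (w - 1 - d) := ⟨w - 1 - z, by omega, by
    rwa [show w - 1 - (w - 1 - z) = z by omega]⟩
  have h2 := Nat.find_spec h1
  refine ⟨w - 1 - Nat.find h1, by omega, h2.2, by omega, hw, fun k hk hk' hp => ?_⟩
  refine Nat.find_min h1 (m := w - 1 - k) (by omega) ⟨by omega, ?_⟩
  rwa [show w - 1 - (w - 1 - k) = k by omega]

/-- the segment of length `m` from `i` on -/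
def seg (x : ℕ → Bool) (i m : ℕ) : List Bool := (List.range m).map fun t => x (i + t)

theorem seg_length (x : ℕ → Bool) (i m : ℕ) : (seg x i m).length = m := by simp [seg]

theorem seg_get {x : ℕ → Bool} {i j m m' : ℕ} (h : seg x i m = seg x j m') :
    m = m' ∧ ∀ t < m, x (i + t) = x (j + t) := by
  have h1 : m = m' := by
    have := congrArg List.length h
    rwa [seg_length, seg_length] at this
  subst h1
  refine ⟨rfl, fun t ht => ?_⟩
  have h2 := congrArg (fun l => l[t]?) h
  simp only [seg, List.getElem?_map, List.getElem?_range ht, Option.map_some] at h2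
  exact Option.some_injective _ h2

theorem seg_congr {x : ℕ → Bool} {i j m : ℕ} (h : ∀ t, x (i + t) = x (j + t)) :
    seg x i m = seg x j m := by
  unfold seg
  exact List.map_congr_left fun t _ => h t

/-- the label of the interval from `i` to `j` -/
def lab (x : ℕ → Bool) (n i j : ℕ) : ℕ := encode (seg x i (j - i + n + 1))

theorem lab_eq {x : ℕ → Bool} {n i j k : ℕ} (h : lab x n i j = lab x n j k) :
    j - i = k - j ∧ ∀ t < j - i + n + 1, x (i + t) = x (j + t) := by
  have h1 := seg_get (encode_injective h)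
  exact ⟨by omega, h1.2⟩

/-- a bound for the codes of the lists of length at most `n` -/
def bd : ℕ → ℕ
  | 0 => 0
  | n + 1 => (max 1 (bd n) + 1) ^ 2

theorem encode_le_bd (l : List Bool) : encode l ≤ bd l.length := by
  induction l with
  | nil => simp [bd]
  | cons b l ih =>
    rw [encode_list_cons, List.length_cons, bd]
    have h1 : encode b ≤ 1 := by cases b <;> simp
    have h2 := Nat.pair_lt_max_add_one_sq (encode b) (encode l)
    have h3 : max (encode b) (encode l) ≤ max 1 (bd l.length) := max_le_max h1 ih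
    have h4 : (max (encode b) (encode l) + 1) ^ 2 ≤ (max 1 (bd l.length) + 1) ^ 2 :=
      Nat.pow_le_pow_left (by omega) 2
    omega

theorem bd_mono {m n : ℕ} (h : m ≤ n) : bd m ≤ bd n := by
  induction h with
  | refl => exact le_rfl
  | @step k _ ih =>
    refine ih.trans ?_
    rw [bd]
    have h1 : bd k ≤ max 1 (bd k) + 1 := (le_max_right _ _).trans (Nat.le_succ _)
    exact h1.trans (Nat.le_self_pow (by omega) _)

theorem lab_le {x : ℕ → Bool} {n i j m : ℕ} (h : j - i + n + 1 ≤ m) : lab x n i j ≤ bd m := by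
  refine (encode_le_bd _).trans ?_
  rw [seg_length]
  exact bd_mono h

/-- the next set of markers -/
def nM (x : ℕ → Bool) (n b : ℕ) (P : ℕ → Prop) (i : ℕ) : Prop :=
  P i ∧ ∀ j < i + b + 1, ∀ k < j + b + 1, ∀ l < k + b + 1, Nx P i j → Nx P j k → Nx P k l →
    lab x n i j = lab x n j k ∨ (lab x n i j < lab x n j k ∧ lab x n k l < lab x n j k)

/-- the bound for the gaps between the markers -/
def gM : ℕ → ℕ
  | 0 => 1
  | n + 1 => gM n + 2 * bd (gM n + n + 2) * gM n

/-- the markers of level `n` -/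
def M (x : ℕ → Bool) : ℕ → ℕ → Prop
  | 0 => fun _ => True
  | n + 1 => nM x (n + 1) (gM n) (M x n)

/-- the next set of cuts -/
def nK (x : ℕ → Bool) (n b : ℕ) (P P' K : ℕ → Prop) (i : ℕ) : Prop :=
  (P i ∧ ¬ P' i ∧ ∀ j < i + b + 1, Nx P i j → P' j) ∨
  (K i ∧ ∀ j < i + b + 1, ∀ k < j + b + 1, Nx P i j → Nx P j k →
    P' j ∧ P' k ∧ ∀ t < n, x (i + t) = x (i + (k - j) + t))

/-- the cuts of level `n` -/
def K (x : ℕ → Bool) : ℕ → ℕ → Prop
  | 0 => fun _ => True
  | n + 1 => nK x (n + 1) (gM n) (M x n) (M x (n + 1)) (K x n)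

variable {x : ℕ → Bool}

theorem M_sub {n i : ℕ} (h : M x (n + 1) i) : M x n i := h.1

theorem M_anti {n m : ℕ} (h : n ≤ m) {i : ℕ} (hi : M x m i) : M x n i := by
  induction h with
  | refl => exact hi
  | step _ ih => exact ih hi.1

theorem lab_bd {n i j : ℕ} (h : j ≤ i + gM n) : lab x (n + 1) i j ≤ bd (gM n + n + 2) :=
  lab_le (by omega)

/-- the gaps between the markers are bounded -/
theorem gapM (x : ℕ → Bool) (n : ℕ) : ∀ i, ∃ j, i < j ∧ j ≤ i + gM n ∧ M x n j := by
  induction n with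
  | zero => intro i; exact ⟨i + 1, by omega, by simp [gM], trivial⟩
  | succ n ih =>
    have hN : ∀ i, ∃ j, Nx (M x n) i j ∧ j ≤ i + gM n := fun i => exists_Nx (ih i)
    have crit : ∀ i j k l, M x n i → Nx (M x n) i j → Nx (M x n) j k → Nx (M x n) k l →
        (lab x (n + 1) i j = lab x (n + 1) j k ∨ (lab x (n + 1) i j < lab x (n + 1) j k ∧
          lab x (n + 1) k l < lab x (n + 1) j k)) → M x (n + 1) i := by
      intro i j k l hi h1 h2 h3 h4
      refine ⟨hi, fun j' _ k' _ l' _ h1' h2' h3' => ?_⟩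
      obtain rfl := h1.uniq h1'
      obtain rfl := h2.uniq h2'
      obtain rfl := h3.uniq h3'
      exact h4
    have inc : ∀ v i j k, M x n i → Nx (M x n) i j → Nx (M x n) j k → k ≤ j + gM n →
        j ≤ i + gM n → lab x (n + 1) i j < lab x (n + 1) j k →
        bd (gM n + n + 2) ≤ lab x (n + 1) i j + v → ∃ i', i ≤ i' ∧ i' ≤ i + v * gM n ∧
          M x (n + 1) i' := by
      intro v
      induction v with
      | zero =>
        intro i j k hi h1 h2 h3 h4 h5 h6
        have := lab_bd (x := x) h3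
        omega
      | succ v ihv =>
        intro i j k hi h1 h2 h3 h4 h5 h6
        obtain ⟨l, h7, h8⟩ := hN k
        by_cases h9 : lab x (n + 1) k l < lab x (n + 1) j k
        · exact ⟨i, le_rfl, by omega, crit i j k l hi h1 h2 h7 (Or.inr ⟨h5, h9⟩)⟩
        · have hv : (v + 1) * gM n = v * gM n + gM n := Nat.succ_mul _ _
          rcases Nat.lt_or_eq_of_le (not_lt.1 h9) with h10 | h10
          · obtain ⟨i', h11, h12, h13⟩ := ihv j k l h1.2.1 h2 h7 h8 h3 h10 (by omega)
            exact ⟨i', by have := h1.1; omega, by omega, h13⟩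
          · obtain ⟨l', h11, h12⟩ := hN l
            exact ⟨j, h1.1.le, by omega, crit j k l l' h1.2.1 h2 h7 h11 (Or.inl h10)⟩
    have all : ∀ v i j, M x n i → Nx (M x n) i j → j ≤ i + gM n → lab x (n + 1) i j ≤ v →
        ∃ i', i ≤ i' ∧ i' ≤ i + (v + bd (gM n + n + 2)) * gM n ∧ M x (n + 1) i' := by
      intro v
      induction v with
      | zero =>
        intro i j hi h1 h2 h3
        obtain ⟨k, h4, h5⟩ := hN j
        obtain ⟨l, h6, h7⟩ := hN k
        rcases Nat.lt_or_eq_of_le (Nat.zero_le (lab x (n + 1) j k)) with h8 | h8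
        · obtain ⟨i', h9, h10, h11⟩ := inc (bd (gM n + n + 2)) i j k hi h1 h4 h5 h2 (by omega)
            (by omega)
          exact ⟨i', h9, by rw [Nat.zero_add]; exact h10, h11⟩
        · exact ⟨i, le_rfl, by omega, crit i j k l hi h1 h4 h6 (Or.inl (by omega))⟩
      | succ v ihv =>
        intro i j hi h1 h2 h3
        obtain ⟨k, h4, h5⟩ := hN j
        obtain ⟨l, h6, h7⟩ := hN k
        have hv : (v + 1 + bd (gM n + n + 2)) * gM n = (v + bd (gM n + n + 2)) * gM n + gM n := by
          ring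
        have hv' : (v + 1 + bd (gM n + n + 2)) * gM n =
            bd (gM n + n + 2) * gM n + (v + 1) * gM n := by ring
        rcases lt_trichotomy (lab x (n + 1) i j) (lab x (n + 1) j k) with h8 | h8 | h8
        · obtain ⟨i', h9, h10, h11⟩ := inc (bd (gM n + n + 2)) i j k hi h1 h4 h5 h2 h8 (by omega)
          exact ⟨i', h9, by omega, h11⟩
        · exact ⟨i, le_rfl, by omega, crit i j k l hi h1 h4 h6 (Or.inl h8)⟩
        · obtain ⟨i', h9, h10, h11⟩ := ihv j k h1.2.1 h4 h5 (by omega)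
          exact ⟨i', by have := h1.1; omega, by omega, h11⟩
    intro i
    obtain ⟨j, h1, h2⟩ := hN i
    obtain ⟨k, h3, h4⟩ := hN j
    obtain ⟨i', h5, h6, h7⟩ := all _ j k h1.2.1 h3 h4 (lab_bd h4)
    refine ⟨i', by have := h1.1; omega, ?_, h7⟩
    have h8 : gM (n + 1) = gM n + (bd (gM n + n + 2) + bd (gM n + n + 2)) * gM n := by
      rw [gM]
      ring
    omega

theorem NxM (x : ℕ → Bool) (n i : ℕ) : ∃ j, Nx (M x n) i j ∧ j ≤ i + gM n := exists_Nx (gapM x n i)

theorem Nx_le {n i j : ℕ} (h : Nx (M x n) i j) : j ≤ i + gM n := by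
  obtain ⟨k, h1, h2⟩ := NxM x n i
  rwa [h.uniq h1]

theorem M_succ {n i j k l : ℕ} (h1 : Nx (M x n) i j) (h2 : Nx (M x n) j k) (h3 : Nx (M x n) k l) :
    M x (n + 1) i ↔ M x n i ∧ (lab x (n + 1) i j = lab x (n + 1) j k ∨
      (lab x (n + 1) i j < lab x (n + 1) j k ∧ lab x (n + 1) k l < lab x (n + 1) j k)) := by
  constructor
  · intro h
    exact ⟨h.1, h.2 j (by have := Nx_le h1; omega) k (by have := Nx_le h2; omega) l
      (by have := Nx_le h3; omega) h1 h2 h3⟩
  · rintro ⟨hi, h4⟩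
    refine ⟨hi, fun j' _ k' _ l' _ h1' h2' h3' => ?_⟩
    obtain rfl := h1.uniq h1'
    obtain rfl := h2.uniq h2'
    obtain rfl := h3.uniq h3'
    exact h4

/-- if two markers which are neighbours are kept then the labels are the same -/
theorem kept {n i j k : ℕ} (h1 : Nx (M x n) i j) (h2 : Nx (M x n) j k) (hi : M x (n + 1) i)
    (hj : M x (n + 1) j) : lab x (n + 1) i j = lab x (n + 1) j k := by
  obtain ⟨l, h3, -⟩ := NxM x n k
  obtain ⟨l', h4, -⟩ := NxM x n l
  have h5 := ((M_succ h1 h2 h3).1 hi).2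
  have h6 := ((M_succ h2 h3 h4).1 hj).2
  rcases h5 with h5 | h5
  · exact h5
  · rcases h6 with h6 | h6 <;> omega

theorem K_succ {n i j k : ℕ} (h1 : Nx (M x n) i j) (h2 : Nx (M x n) j k) :
    K x (n + 1) i ↔ (M x n i ∧ ¬ M x (n + 1) i ∧ M x (n + 1) j) ∨
      (K x n i ∧ M x (n + 1) j ∧ M x (n + 1) k ∧ ∀ t < n + 1, x (i + t) = x (i + (k - j) + t)) := by
  have h3 := Nx_le h1
  have h4 := Nx_le h2
  constructor
  · rintro (⟨h5, h6, h7⟩ | ⟨h5, h6⟩)
    · exact Or.inl ⟨h5, h6, h7 j (by omega) h1⟩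
    · exact Or.inr ⟨h5, h6 j (by omega) k (by omega) h1 h2⟩
  · rintro (⟨h5, h6, h7⟩ | ⟨h5, h6⟩)
    · refine Or.inl ⟨h5, h6, fun j' _ h1' => ?_⟩
      obtain rfl := h1.uniq h1'
      exact h7
    · refine Or.inr ⟨h5, fun j' _ k' _ h1' h2' => ?_⟩
      obtain rfl := h1.uniq h1'
      obtain rfl := h2.uniq h2'
      exact h6

/-- the bound for the gaps between the cuts -/
def gK : ℕ → ℕ
  | 0 => 0
  | n + 1 => 3 * gM n + gK n + gM (n + 1)

/-- the gaps between the cuts are bounded -/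
theorem gapK (x : ℕ → Bool) (n : ℕ) : ∀ i, ∃ j, i ≤ j ∧ j ≤ i + gK n ∧ K x n j := by
  induction n with
  | zero => intro i; exact ⟨i, le_rfl, by simp [gK], trivial⟩
  | succ n ih =>
    intro i
    obtain ⟨z0, hz0, hz0'⟩ := NxM x n i
    have hz1 := hz0.1
    by_cases hall : ∀ z, z0 ≤ z → z ≤ z0 + gK n + 2 * gM n → M x n z → M x (n + 1) z
    · obtain ⟨y, hy1, hy2, hy3⟩ := ih z0
      obtain ⟨j, hj, hj'⟩ := NxM x n y
      obtain ⟨k, hk, hk'⟩ := NxM x n j
      obtain ⟨p, hp1, hp2, hp3⟩ := exists_prev (P := M x n) hz0.2.1 hj.2.1 (by have := hj.1; omega)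
      have hpy : p ≤ y := by
        by_contra hc
        exact hj.2.2 p (by omega) hp3.1 hp2
      have hj1 := hj.1
      have hk1 := hk.1
      have h1 : M x (n + 1) p := hall p hp1 (by omega) hp2
      have h2 : M x (n + 1) j := hall j (by omega) (by omega) hj.2.1
      have h3 : M x (n + 1) k := hall k (by omega) (by omega) hk.2.1
      have h4 := lab_eq (kept hp3 hk h1 h2)
      refine ⟨y, by omega, by simp only [gK]; omega, (K_succ hj hk).2 (Or.inr ⟨hy3, h2, h3, ?_⟩)⟩
      intro t ht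
      have h5 := h4.2 (y - p + t) (by omega)
      rw [show p + (y - p + t) = y + t by omega] at h5
      rw [h5]
      congr 1
      omega
    · push Not at hall
      obtain ⟨z, h1, h2, h3, h4⟩ := hall
      obtain ⟨w, h5, h6⟩ := NxM x (n + 1) z
      obtain ⟨y, h7, h8, h9⟩ := exists_prev (P := M x n) h3 h5.2.1.1 h5.1
      have h10 : ¬ M x (n + 1) y := by
        rcases Nat.lt_or_eq_of_le h7 with h | h
        · exact h5.2.2 y h h9.1
        · rwa [← h]
      obtain ⟨k, hk, -⟩ := NxM x n w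
      refine ⟨y, by omega, ?_, (K_succ h9 hk).2 (Or.inl ⟨h8, h10, h5.2.1⟩)⟩
      have := h9.1
      simp only [gK]
      omega

end Pool.Agent.V7H75.TE
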